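import Pool.Agent.P8H27.WE.Open

/-!
# The Tate conjecture for the higher Chow groups of the schemes generated by abelian varieties whose
# traces of Frobenius lie in a totally real Galois field with at most two primes above `p`

Let `L` be a totally real number field, Galois over `ℚ`, with at most two prime ideals above the
prime number `p`: for instance `ℚ`, any real quadratic field, a field in which `p` is inert or
totally ramified, or the maximal real subfield of `ℚ(ζ_N)` if `p` and `-1` generate a subgroup of
index at most two of the group of units modulo `N`.

Over an algebraic closure of the field with `p` elements each abelian variety is isogenous to the
reduction of an abelian variety of CM type (Honda, Tate). So an abelian variety over the field with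
`p ^ a` elements is modelled by `RedAV`: a finite product of CM types `(E i, Φ i)` with Weil numbers
`π i ∈ E i` that satisfy the formula of Shimura and Taniyama; its cohomology of degree `n`, with
coefficients in an algebraically closed field `Ω`, consists of the alternating `n`-forms on
`Ω ⊗ H_1`, on which the Frobenius endomorphism acts by `π`.

We consider all abelian varieties `Y` over finite fields of characteristic `p` such that, up to
supersingular factors, the traces `π ^ s + (q / π) ^ s` of a power of Frobenius lie in `L`
(`HasTracesIn`), and that are ordinary up to the supersingular factors, or more generally have equal
slopes (up to duality, at each place) for Frobenius eigenvalues that generate the same quadratic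
extension of `L` (`EqualSlopes`). The CM fields of `Y` are arbitrary CM fields whose maximal real
subfields have embeddings in `L` (in general there are infinitely many), and the dimension of `Y` is
arbitrary. Examples are all products of elliptic curves (`L = ℚ`), all products of elliptic curves
and of ordinary abelian surfaces with real multiplication by a given real quadratic field `L`, and
products of Jacobians of Kloosterman curves `y ^ p - y = x + a / x`, `p ≠ 2` (`L = ℚ(ζ_p)⁺`).

`Homology Ω V` are data of motivic homology `M X i j = H_i^M(X, ℚ(j)) = CH_j(X, i - 2 j) ⊗ ℚ` and of
`ℓ`-adic homology `E X i j = H_i(X, ℚ_ℓ(j))` (coefficients extended to `Ω`) of schemes `X` of finite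
type over a finite field (the elements of `V`), with the Frobenius and the regulator. For smooth `X` of
dimension `D` the regulator in the bidegree `(i, j)` is the map of the question,

  `c^{a,b} : CH^b(X, 2 b - a) ⊗ ℚ_ℓ → H^a(X, ℚ_ℓ(b))^G`,    `a = 2 D - i`, `b = D - j`.

The class `Generated` contains the abelian varieties above, it contains the schemes whose motives are
direct summands of finite sums of twists of motives of members, and it contains all of `Z`, `X`,
`U = X ∖ Z` if it contains two of them: so it contains for instance all products of curves whose
Jacobians are as above and of open subsets of such curves, their symmetric powers, and the open and the
singular varieties with a stratification by such varieties.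

**Theorem**, for all schemes `X` of this class, smooth or not, proper or not.

1. In all bidegrees the regulators of `X` are isomorphisms onto the Frobenius invariants (after
   extension of scalars), in particular surjective, and the eigenvalue one is semisimple (`TBAt`).
2. Let `Z` be an **arbitrary** closed subscheme of `X`, of dimension at most `d` (`HasDimension`). Then
   the same holds for the complement `U = X ∖ Z` in all bidegrees `(i, j)` with `j ≥ d`. For smooth `U`
   of dimension `D` this says that the map `c^{a,b}` of the question is bijective for all `a` and for
   all weights `b` at most the codimension `D - d` of `Z`.

So, for example, for all open subsets `U` of a product `X` of curves as above, whose complement has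
codimension at least `c`, the maps `c^{a,b}` are surjective for all `a` and all `b ≤ c`; no assumption is
made on the cycles on the complement.

Properties of the theory of cycles on abelian varieties that are used (`IsChow`, `IsMotivic`):
Poincaré duality, the formal properties of correspondences, the nilpotence of homologically trivial
correspondences (Kimura), the operation of the Frobenius endomorphism on higher Chow groups, the
vanishing of the higher rational `K`-groups of a finite field (Quillen), and the algebraicity of the
classes in `Alg` (of which only products of classes of divisors matter here, theorem of Tate). The
passage from the Tate conjecture to all degrees and to the class `Generated` is due to Soulé, Geisser,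
Kahn and Jannsen; it was formalized in the starting files. New are the theorem that the Tate classes on
the abelian varieties `Y` are generated by those of degree two (`tate_alg`) and the bidegrees in part 2.
-/

namespace Pool.Agent.Results.MP_81b968_ag.TracesInRealField

open NumberField Pool.Agent.W495.TA Pool.Agent.W495.FM Pool.Agent.P8H27.RF Pool.Agent.P8H27.WE

/-- **The Tate conjecture for the higher Chow groups** of the members of the class generated by the
abelian varieties with traces in `L`, in all bidegrees, and of the complements `U` of arbitrary closed
subschemes `Z` in the weights up to the codimension of `Z`. -/
theorem result (p : ℕ) [Fact p.Prime] (ν : PadicAlgCl p ≃+* ℂ) (L : Type) [Field L] [NumberField L]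
    [IsTotallyReal L] [IsGalois ℚ L] (hL : numPrimes p L ≤ 2) (Ω : Type) [Field Ω]
    [IsAlgClosed Ω] [CharZero Ω] (V : Type) (T : Homology Ω V) (hT : IsHomology T) (X : V)
    (hX : Generated T (IsTracesAbelian p ν L T) X) :
    (∀ i j, TBAt T X i j) ∧ ∀ (Z U : V) (d : ℤ), IsTriple T Z X U → HasDimension T Z d →
      ∀ i j, d ≤ j → TBAt T U i j :=
  traces_opened hL hT hX

end Pool.Agent.Results.MP_81b968_ag.TracesInRealField
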