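import Pool.Agent.P8H27.MC.Main

/-!
# The Tate conjecture for higher Chow groups: products of ordinary abelian varieties whose traces of
# Frobenius lie in a totally real field with at most two primes above `p`, with arbitrary varieties

Let `q = p ^ m` and let `L` be a totally real number field, Galois over `ℚ`, with **at most two prime
ideals above `p`** (`numPrimes`), for example `ℚ` or a real quadratic field, or a field of any degree in
which the decomposition groups of `p` have index at most two. Let `S` be any set of integers `b` of `L` that
are prime to `p` (`PrimeTo`) and such that all conjugates have absolute value at most `2 √q`
(`WeilBound`), for instance all of them.

We consider **all** abelian varieties `A` over the field with `q` elements such that every eigenvalue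
of Frobenius on `H^1(A)` is supersingular or a root of `T ^ 2 - φ(b) T + q`, with `b ∈ S` and `φ` an
embedding of `L` (`HasTraces`), that is, the abelian varieties which are ordinary up to supersingular
factors and for which the eigenvalues of Frobenius plus Verschiebung belong to `L`. There are
infinitely many isogeny classes of simple factors of each dimension dividing `[L : ℚ]`, and `A` may have
any number of them; their CM fields are arbitrary totally imaginary quadratic extensions of the subfields
of `L`. (If the product of two eigenvalues is `q` up to a root of unity then it is assumed to be `q`;
this is so over some finite extension of the ground field.)

Let `U` be an **arbitrary** smooth variety over this field, such that the eigenvalues of Frobenius on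
the cohomology of `U` are separated (`HasSeparatedRoots`, `IsSeparated`): each of them has some weight
`w` (its conjugates have absolute value `q ^ (w / 2)`), it is not an odd power of `√q` up to a root of
unity (this is only necessary if `A` has supersingular factors), and one of the following conditions
holds (`Separated`), where `s`, `s'` run through its slopes, the valuations of its `p`-adic conjugates:

* all slopes are `w / 2` (up to roots of unity this says `ρ ^ 2 = q ^ w`);
* two slopes have a difference which is not an integer, or two times a slope is not an integer;
* some `|2 s - w|` is greater than the mean value of the numbers `(2 s' - w) ^ 2`;
* for some `n > 0` no discriminant `φ(b) ^ 2 - 4 q`, `b ∈ S`, is a square in the field generated by `ρ ^ n`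
  and the images of `L`.

For example `U` may be any variety with a stratification such that the closures of the strata have
cohomology of Tate type (complements of arrangements of hyperplanes, tori, flag varieties, toric
varieties), supersingular varieties of even weights, K3 surfaces of finite height `h > 2` or ordinary
K3 surfaces with Picard number less than `18`, products of these with varieties of Tate type, and open
subvarieties with this cohomology.

**Theorem** (`TateTimes`). The regulator `c^(i, j)` is onto the Frobenius invariants for `A × U` **if
and only if** the regulators `c^(i - 2 k, j - k)`, `0 ≤ k ≤ dim A`, are onto the Frobenius invariants for
`U`. Hence the conjecture of Beilinson, Friedlander and Jannsen (Q1), in all bidegrees, is true for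
`A × U` if and only if it is true for `U`; in particular it is true for `A × U` if it is true for `U`, for
all these abelian varieties `A` at once. Moreover there are finitely many products `D t` of
divisor classes on `A` such that the invariants for `A × U` are the direct sum of the products of the
`D t` with the invariants for `U` (`Kunneth`).

The framework is the one of the starting files (`Pool.Agent.Y156.L`: the theories relative to `U`, the
regulators, finite dimensionality of the motive of `A` after Kimura, the theorem of Tate on divisors).

The proof. Suppose that a product `α_1 ... α_n ρ` of eigenvalues of `A` and of an eigenvalue `ρ` of `U` is
a power of `q`. If `ρ` is separated then `α_1 ... α_n` is also, up to a root of unity, a power of `√q`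
(`MP_0fca13_ag.TimesArbitraryVarieties`), and since `L` has at most two primes above `p` two of the `α`
have product `q` up to a root of unity (`MP_0fca13_ag.TracesInRealField`), unless `n = 1` and `α_1` is
supersingular, which is excluded as `ρ` is not an odd power of `√q`. By induction the part of the
cohomology of `A` on which these relations occur is generated by `H^2`-classes that are Frobenius
invariant, so by divisors, and the complement is killed by a polynomial in the Frobenius of `A`, which is
coprime to the one on the invariants.
-/

namespace Pool.Agent.Results.MP_81b968_ag.TracesTimesVarieties

open NumberField Polynomial Pool.Agent.P8H27.RF Pool.Agent.P8H27.MC

/-- **The Tate conjecture for higher Chow groups of the products `A × U`**, where the abelian variety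
`A` has traces of Frobenius in `L` and `U` has separated eigenvalues: it is equivalent to the
conjecture for `U`, bidegree by bidegree. -/
theorem result {p m : ℕ} [Fact p.Prime] (hm : 0 < m) {L : Type} [Field L] [NumberField L]
    [IsTotallyReal L] [IsGalois ℚ L] (hL : numPrimes p L ≤ 2) (S : Set (𝓞 L))
    (hS : WeilBound (p ^ m) S) (hP : PrimeTo p S) {I : Type} (f : I → ℤ[X]) :
    TateTimes p m S f :=
  tateTimes hm hS hP hL

end Pool.Agent.Results.MP_81b968_ag.TracesTimesVarieties
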