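import Pool.Agent.P8H64.GH.Jan

set_option autoImplicit false

/-!
# The Tate conjecture for higher Chow groups and trilinear hypersurfaces (MP_81b968_ag, Q1)

Definitions: `hypS` (the smooth hypersurface `T(x, y, z) = 1` of a trilinear form `T`) is in
`Pool/Agent/Y116/UV/Defs.lean`; `DimSmooth`, `ForTri`, `ForBlock` in `Pool/Agent/P8H64/GH/Dims.lean`; `HThy`
(motivic and `ℓ`-adic Borel-Moore homology of schemes over the finite field `k`, with the known properties
which are used), `HThy.Holds` and `IsTB` in `Pool/Agent/P8H64/GH/Jan.lean`. For smooth `X` of dimension `d`,
`H_i^M(X, ℚ(j)) = H^{2d-i}_M(X, ℚ(d - j))` and `H_i(X̄, ℚ_ℓ(j)) = H^{2d-i}(X̄, ℚ_ℓ(d - j))`, so the regulators are the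
maps `c^{2d-i,d-j}` of the question.

`HThy.IsOnto T X` says that all maps `c^{i,j}` of `X` are onto the invariants of Frobenius. `T.Holds X` says that
in addition they are injective (after extension of scalars) and that the eigenvalue `1` of Frobenius is
semisimple.

The theorem: let `k` be a finite field. All maps `c^{i,j}` are onto for the smooth hypersurfaces
`T(x, y, z) = 1` of the trilinear forms `T` over `k` in which one of the three blocks of variables has at most
three variables; the numbers of the other variables, so the dimension, are arbitrary. Moreover
`T.Holds` is true for these hypersurfaces. For every `d`, `T.Holds` is true for all smooth varieties of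
dimension at most `d` if and only if it is true for the hypersurfaces `T(x, y, z) = 1` with `d + 2` variables
`z`, and if and only if it is true for those in which one of the blocks has at most `d + 2` variables.

The proof uses that `T.Holds` is closed under closed-open decompositions, by the five lemma for the generalised
eigenspaces of Frobenius (`Pool.Agent.W495.FM.five`), and passes to Jouanolou's affine bundles and back; the
equivalence with trilinear forms is a theorem of the starting files for all properties of this kind
(`Pool.Agent.Z125.UN.dim_tri`). The case `d = 1` is known (Weil, Quillen, Harder).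
-/

namespace Pool.Agent.Results.MP_81b968_ag.TrilinearHypersurfaces

open Pool.Agent.Y116.UV Pool.Agent.P8H64.GH Pool.Agent.P8H64.GH.Jan

/-- All regulators of `X` are onto the invariants of Frobenius, after extension of scalars. -/
def IsOnto {k : Type} [Field k] {Ω : Type} [Field Ω] [CharZero Ω] (T : HThy k Ω) (X : Sch k) : Prop :=
  ∀ i n : ℤ, ∀ e, (T.H X i n).φ e = e → e ∈ Submodule.span Ω (Set.range (T.H X i n).ρ)

/-- Let `k` be a finite field. For the trilinear forms `T` over `k` in which one of the three blocks of
variables has at most three variables all regulators of the smooth hypersurface `T(x, y, z) = 1` are onto the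
invariants of Frobenius; they are isomorphisms onto the invariants, and the eigenvalue `1` is semisimple. For
every `d` these statements are true for all smooth varieties over `k` of dimension at most `d` if and only if
they are true for the hypersurfaces `T(x, y, z) = 1` with `d + 2` variables `z`, and if and only if they are
true for those in which one of the blocks has at most `d + 2` variables. -/
theorem result (k : Type) [Field k] [Finite k] {Ω : Type} [Field Ω] [CharZero Ω] (T : HThy k Ω) :
    ForBlock k (IsOnto T) 3 ∧ ForBlock k T.Holds 3 ∧
    ∀ d : ℕ, List.TFAE [DimSmooth k True T.Holds d, ForTri k T.Holds (d + 2), ForBlock k T.Holds (d + 2)] := by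
  have h1 := dim_one T
  have h2 := ((dims T 1).1.out 0 3 : DimAll k True T.Holds 1 ↔ ForBlock k T.Holds (1 + 2)).1 h1
  refine ⟨fun a b c S hS i n e he => ((h2 a b c S hS i n).1 e).1 he, h2, fun d => ?_⟩
  have h3 := (dims T d).1
  tfae_have 1 ↔ 2 := h3.out 1 2
  tfae_have 1 ↔ 3 := h3.out 1 3
  tfae_finish

end Pool.Agent.Results.MP_81b968_ag.TrilinearHypersurfaces
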